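import Pool.Agent.Q81.FT.Exp

/-!
# The algebra of power series whose restriction to one axis is absolutely summable
-/

namespace Pool.Agent.Q81.FT

open MvPowerSeries Finset
open scoped ENNReal

/-- the `ℓ¹` size of the coefficients with exponents in `D` -/
noncomputable def NN (D : Set (ℕ →₀ ℕ)) (f : FF) : ℝ≥0∞ := ∑' s, D.indicator (fun s => ‖coeff s f‖ₑ) s

theorem NN_zero (D : Set (ℕ →₀ ℕ)) : NN D 0 = 0 := by
  simp [NN, Set.indicator]

theorem NN_add (D : Set (ℕ →₀ ℕ)) (f g : FF) : NN D (f + g) ≤ NN D f + NN D g := by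
  rw [NN, NN, NN, ← ENNReal.tsum_add]
  refine ENNReal.tsum_le_tsum fun s => ?_
  by_cases hs : s ∈ D
  · simp only [Set.indicator_of_mem hs, map_add]
    exact enorm_add_le _ _
  · simp [Set.indicator_of_notMem hs]

theorem NN_smul (D : Set (ℕ →₀ ℕ)) (c : ℂ) (f : FF) : NN D (c • f) = ‖c‖ₑ * NN D f := by
  rw [NN, NN, ← ENNReal.tsum_mul_left]
  refine tsum_congr fun s => ?_
  by_cases hs : s ∈ D
  · simp only [Set.indicator_of_mem hs]
    rw [LinearMap.map_smul, smul_eq_mul, enorm_mul]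
  · simp [Set.indicator_of_notMem hs]

theorem NN_neg (D : Set (ℕ →₀ ℕ)) (f : FF) : NN D (-f) = NN D f := by
  have := NN_smul D (-1) f
  simpa using this

theorem NN_mono {D D' : Set (ℕ →₀ ℕ)} (h : D ⊆ D') (f : FF) : NN D f ≤ NN D' f := by
  refine ENNReal.tsum_le_tsum fun s => ?_
  exact Set.indicator_le_indicator_of_subset h (fun _ => zero_le) s

theorem le_NN {D : Set (ℕ →₀ ℕ)} {s : ℕ →₀ ℕ} (hs : s ∈ D) (f : FF) : ‖coeff s f‖ₑ ≤ NN D f := by
  have := ENNReal.le_tsum (f := D.indicator (fun s => ‖coeff s f‖ₑ)) s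
  rwa [Set.indicator_of_mem hs] at this

theorem NN_mul {D : Set (ℕ →₀ ℕ)} (hD : ∀ s ∈ D, ∀ t ≤ s, t ∈ D) (f g : FF) :
    NN D (f * g) ≤ NN D f * NN D g := by
  classical
  set F := D.indicator (fun s => ‖coeff s f‖ₑ) with hF
  set G := D.indicator (fun s => ‖coeff s g‖ₑ) with hG
  have h1 : NN D (f * g) ≤ ∑' s, ∑ p ∈ antidiagonal s, F p.1 * G p.2 := by
    refine ENNReal.tsum_le_tsum fun s => ?_
    by_cases hs : s ∈ D
    · simp only [Set.indicator_of_mem hs]
      rw [coeff_mul]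
      refine (enorm_sum_le _ _).trans (Finset.sum_le_sum fun p hp => ?_)
      have hp' := HasAntidiagonal.mem_antidiagonal.1 hp
      have m1 : p.1 ∈ D := hD s hs _ (by rw [← hp']; exact le_self_add)
      have m2 : p.2 ∈ D := hD s hs _ (by rw [← hp']; exact le_add_self)
      rw [hF, hG, Set.indicator_of_mem m1, Set.indicator_of_mem m2, enorm_mul]
    · simp [Set.indicator_of_notMem hs]
  have h2 : ∑' s, ∑ p ∈ antidiagonal s, F p.1 * G p.2 = (∑' s, F s) * ∑' s, G s := by
    have e1 : ∑' p : (ℕ →₀ ℕ) × (ℕ →₀ ℕ), F p.1 * G p.2 = (∑' s, F s) * ∑' s, G s := by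
      rw [ENNReal.tsum_prod', ← ENNReal.tsum_mul_right]
      refine tsum_congr fun s => ?_
      show ∑' b, F s * G b = _
      rw [ENNReal.tsum_mul_left]
    rw [← e1, ← (HasAntidiagonal.sigmaAntidiagonalEquivProd (A := ℕ →₀ ℕ)).tsum_eq, ENNReal.tsum_sigma']
    refine tsum_congr fun s => ?_
    rw [tsum_fintype, Finset.univ_eq_attach]
    rw [← Finset.sum_attach]
    rfl
  exact h1.trans h2.le

/-- the powers of the variable `X₁` -/
def P : Set (ℕ →₀ ℕ) := {s | ∀ i, i ≠ 1 → s i = 0}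

/-- the corner of the `m`-th box -/
noncomputable def bx (m : ℕ) : ℕ →₀ ℕ := Finsupp.indicator (range (m + 1)) (fun _ _ => m)

theorem bx_apply (m i : ℕ) : bx m i = if i ≤ m then m else 0 := by
  classical
  rw [bx, Finsupp.indicator_apply]
  by_cases h : i ≤ m
  · simp [h, Nat.lt_succ_of_le h]
  · simp [h]

/-- the index sets of the seminorms -/
def DD (m : ℕ) : Set (ℕ →₀ ℕ) := P ∪ Set.Iic (bx m)

theorem DD_lower (m : ℕ) : ∀ s ∈ DD m, ∀ t ≤ s, t ∈ DD m := by
  rintro s (hs | hs) t ht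
  · left
    intro i hi
    exact Nat.le_zero.1 ((hs i hi) ▸ ht i)
  · right
    exact ht.trans hs

theorem bx_mono {m n : ℕ} (h : m ≤ n) : bx m ≤ bx n := by
  intro i
  rw [bx_apply, bx_apply]
  split_ifs <;> omega

theorem DD_mono {m n : ℕ} (h : m ≤ n) : DD m ⊆ DD n :=
  Set.union_subset_union_right _ (Set.Iic_subset_Iic.2 (bx_mono h))

theorem exists_mem_DD (s : ℕ →₀ ℕ) : ∃ m, s ∈ DD m := by
  refine ⟨s.support.sup id + s.support.sup s, Or.inr ?_⟩
  intro i
  rw [bx_apply]
  by_cases h : s i = 0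
  · rw [h]; exact Nat.zero_le _
  · have h1 : i ∈ s.support := Finsupp.mem_support_iff.2 h
    have h2 : i ≤ s.support.sup id := Finset.le_sup (f := id) h1
    have h3 : s i ≤ s.support.sup s := Finset.le_sup (f := s) h1
    rw [if_pos (by omega)]
    omega

theorem NN_box_lt_top (m : ℕ) (f : FF) (hf : NN P f < ⊤) : NN (DD m) f < ⊤ := by
  have h1 : NN (DD m) f ≤ NN P f + NN (Set.Iic (bx m)) f := by
    rw [NN, NN, NN, ← ENNReal.tsum_add]
    refine ENNReal.tsum_le_tsum fun s => ?_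
    by_cases hs : s ∈ P
    · have : s ∈ DD m := Or.inl hs
      rw [Set.indicator_of_mem this, Set.indicator_of_mem hs]
      exact le_self_add
    · by_cases hs' : s ∈ Set.Iic (bx m)
      · have : s ∈ DD m := Or.inr hs'
        rw [Set.indicator_of_mem this, Set.indicator_of_mem hs']
        exact le_add_self
      · have : s ∉ DD m := by rintro (h | h) <;> contradiction
        rw [Set.indicator_of_notMem this]
        exact zero_le
  refine lt_of_le_of_lt h1 (ENNReal.add_lt_top.2 ⟨hf, ?_⟩)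
  have hfin : (Set.Iic (bx m)).Finite := Set.finite_Iic _
  rw [NN, tsum_eq_sum (s := hfin.toFinset)]
  · refine ENNReal.sum_lt_top.2 fun s _ => ?_
    by_cases hs : s ∈ Set.Iic (bx m)
    · rw [Set.indicator_of_mem hs]; exact enorm_lt_top
    · rw [Set.indicator_of_notMem hs]; exact ENNReal.zero_lt_top
  · intro s hs
    rw [Set.indicator_of_notMem]
    simpa using hs

/-- The algebra of all power series `f` such that `f(0, X₁, 0, 0, ...)` has absolutely summable
coefficients. -/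
noncomputable def AA : Subalgebra ℂ FF where
  carrier := {f | NN P f < ⊤}
  mul_mem' {f g} hf hg := by
    have hP : ∀ s ∈ P, ∀ t ≤ s, t ∈ P := by
      intro s hs t ht i hi
      exact Nat.le_zero.1 ((hs i hi) ▸ ht i)
    exact lt_of_le_of_lt (NN_mul hP f g) (ENNReal.mul_lt_top hf hg)
  add_mem' {f g} hf hg := lt_of_le_of_lt (NN_add P f g) (ENNReal.add_lt_top.2 ⟨hf, hg⟩)
  algebraMap_mem' c := by
    show NN P (algebraMap ℂ FF c) < ⊤
    have h : NN P (algebraMap ℂ FF c) ≤ ‖c‖ₑ := by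
      rw [NN, tsum_eq_single 0]
      · refine (Set.indicator_le_self _ _ _).trans ?_
        simp [MvPowerSeries.algebraMap_apply]
      · intro s hs
        have : coeff s (algebraMap ℂ FF c) = 0 := by
          rw [MvPowerSeries.algebraMap_apply, Algebra.algebraMap_self, RingHom.id_apply, coeff_C,
            if_neg hs]
        simp [this, Set.indicator]
    exact lt_of_le_of_lt h enorm_lt_top

theorem mem_AA {f : FF} : f ∈ AA ↔ NN P f < ⊤ := Iff.rfl

/-- The seminorms. -/
noncomputable def sn (m : ℕ) : Seminorm ℂ AA :=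
  Seminorm.of (fun f => (NN (DD m) (f : FF)).toReal)
    (fun f g => by
      have hf := NN_box_lt_top m f.1 f.2
      have hg := NN_box_lt_top m g.1 g.2
      rw [← ENNReal.toReal_add hf.ne hg.ne]
      exact ENNReal.toReal_mono (ENNReal.add_lt_top.2 ⟨hf, hg⟩).ne (NN_add _ _ _))
    (fun c f => by
      show (NN (DD m) (c • (f : FF))).toReal = _
      rw [NN_smul, ENNReal.toReal_mul]
      simp)

theorem sn_apply (m : ℕ) (f : AA) : sn m f = (NN (DD m) (f : FF)).toReal := rfl

theorem ofReal_sn (m : ℕ) (f : AA) : ENNReal.ofReal (sn m f) = NN (DD m) (f : FF) := by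
  rw [sn_apply, ENNReal.ofReal_toReal (NN_box_lt_top m f.1 f.2).ne]

theorem sn_mono : Monotone sn := by
  intro m n h f
  show sn m f ≤ sn n f
  rw [sn_apply, sn_apply]
  exact ENNReal.toReal_mono (NN_box_lt_top n f.1 f.2).ne (NN_mono (DD_mono h) _)

theorem sn_mul (m : ℕ) (f g : AA) : sn m (f * g) ≤ sn m f * sn m g := by
  rw [sn_apply, sn_apply, sn_apply, ← ENNReal.toReal_mul]
  exact ENNReal.toReal_mono (ENNReal.mul_lt_top (NN_box_lt_top m f.1 f.2)
    (NN_box_lt_top m g.1 g.2)).ne (NN_mul (DD_lower m) _ _)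

theorem norm_coeff_le {m : ℕ} {s : ℕ →₀ ℕ} (hs : s ∈ DD m) (f : AA) :
    ‖coeff s (f : FF)‖ ≤ sn m f := by
  have := ENNReal.toReal_mono (NN_box_lt_top m f.1 f.2).ne (le_NN hs (f : FF))
  simpa [sn_apply] using this

theorem sn_sep (f : AA) (h : ∀ m, sn m f = 0) : f = 0 := by
  ext s
  obtain ⟨m, hm⟩ := exists_mem_DD s
  have := norm_coeff_le hm f
  rw [h m] at this
  simpa using norm_le_zero_iff.1 this

theorem sn_complete (u : ℕ → AA)
    (hu : ∀ m, ∀ ε > 0, ∃ N, ∀ i ≥ N, ∀ j ≥ N, sn m (u i - u j) < ε) :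
    ∃ a : AA, ∀ m, ∀ ε > 0, ∃ N, ∀ i ≥ N, sn m (u i - a) < ε := by
  classical
  have hc : ∀ s : ℕ →₀ ℕ, ∃ c : ℂ, Filter.Tendsto (fun i => coeff s (u i : FF)) Filter.atTop (nhds c) := by
    intro s
    obtain ⟨m, hm⟩ := exists_mem_DD s
    apply cauchySeq_tendsto_of_complete
    rw [Metric.cauchySeq_iff]
    intro ε hε
    obtain ⟨N, hN⟩ := hu m ε hε
    refine ⟨N, fun i hi j hj => ?_⟩
    refine lt_of_le_of_lt ?_ (hN i hi j hj)
    rw [dist_eq_norm]
    have := norm_coeff_le hm (u i - u j)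
    simpa using this
  choose c hc using hc
  set a : FF := fun s => c s with ha
  have key : ∀ m, ∀ ε > 0, ∃ N, ∀ i ≥ N, NN (DD m) ((u i : FF) - a) ≤ ENNReal.ofReal ε := by
    intro m ε hε
    obtain ⟨N, hN⟩ := hu m ε hε
    refine ⟨N, fun i hi => ?_⟩
    rw [NN, ENNReal.tsum_eq_iSup_sum]
    refine iSup_le fun S => ?_
    have hlim : Filter.Tendsto (fun j => ∑ s ∈ S, (DD m).indicator
        (fun s => ‖coeff s ((u i : FF) - (u j : FF))‖ₑ) s) Filter.atTop
        (nhds (∑ s ∈ S, (DD m).indicator (fun s => ‖coeff s ((u i : FF) - a)‖ₑ) s)) := by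
      refine tendsto_finsetSum _ fun s _ => ?_
      by_cases hs : s ∈ DD m
      · simp only [Set.indicator_of_mem hs]
        refine (continuous_enorm.tendsto _).comp ?_
        simp only [map_sub]
        exact tendsto_const_nhds.sub (hc s)
      · simp only [Set.indicator_of_notMem hs]
        exact tendsto_const_nhds
    refine le_of_tendsto hlim ?_
    filter_upwards [Filter.eventually_ge_atTop N] with j hj
    refine (ENNReal.sum_le_tsum S).trans ?_
    have h1 : NN (DD m) ((u i : FF) - (u j : FF)) = ENNReal.ofReal (sn m (u i - u j)) := by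
      rw [ofReal_sn]; rfl
    show NN (DD m) ((u i : FF) - (u j : FF)) ≤ _
    rw [h1]
    exact ENNReal.ofReal_le_ofReal (hN i hi j hj).le
  have hmem : a ∈ AA := by
    obtain ⟨N, hN⟩ := key 0 1 one_pos
    have h1 : NN P ((u N : FF) - a) < ⊤ :=
      lt_of_le_of_lt (NN_mono Set.subset_union_left _) (lt_of_le_of_lt (hN N le_rfl)
        ENNReal.ofReal_lt_top)
    have h2 : (u N : FF) - a ∈ AA := h1
    have := AA.sub_mem (u N).2 h2
    simpa using this
  refine ⟨⟨a, hmem⟩, fun m ε hε => ?_⟩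
  obtain ⟨N, hN⟩ := key m (ε / 2) (half_pos hε)
  refine ⟨N, fun i hi => ?_⟩
  have := ENNReal.toReal_mono ENNReal.ofReal_ne_top (hN i hi)
  rw [ENNReal.toReal_ofReal (half_pos hε).le] at this
  exact lt_of_le_of_lt this (half_lt_self hε)

end Pool.Agent.Q81.FT
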