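import Mathlib

/-!
# Discontinuous derivations and automorphisms of the algebra of power series in infinitely many
variables
-/

namespace Pool.Agent.Q81.FT

open MvPowerSeries Finset

/-- Formal power series in countably many variables. -/
abbrev FF := MvPowerSeries ℕ ℂ

/-- A linear functional on all sequences which vanishes on the unit vectors but not on the
constant sequence. -/
theorem exists_functional :
    ∃ lam : (ℕ → ℂ) →ₗ[ℂ] ℂ, (∀ j, lam (Pi.single j 1) = 0) ∧ lam (fun _ => 1) = 1 := by
  classical
  set S : Submodule ℂ (ℕ → ℂ) := Submodule.span ℂ (Set.range fun j => Pi.single j 1) with hS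
  have hfin : ∀ v ∈ S, {n | v n ≠ 0}.Finite := by
    intro v hv
    induction hv using Submodule.span_induction with
    | mem x hx =>
      obtain ⟨j, rfl⟩ := hx
      refine (Set.finite_singleton j).subset ?_
      intro n hn
      by_contra h
      exact hn (Pi.single_eq_of_ne h _)
    | zero => simp
    | add x y _ _ hx hy =>
      refine (hx.union hy).subset ?_
      intro n hn
      by_contra h
      simp only [Set.mem_union, Set.mem_setOf_eq, not_or, not_not] at h
      exact hn (by simp [h.1, h.2])
    | smul c x _ hx =>
      refine hx.subset ?_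
      intro n hn h
      exact hn (by simp [h])
  have h1 : (fun _ => 1 : ℕ → ℂ) ∉ S := by
    intro h
    have := hfin _ h
    simp only [ne_eq, one_ne_zero, not_false_eq_true, Set.setOf_true] at this
    exact Set.infinite_univ this
  obtain ⟨f, hf, hf'⟩ := Submodule.exists_le_ker_of_notMem h1
  refine ⟨(f (fun _ => 1))⁻¹ • f, ?_, ?_⟩
  · intro j
    have : f (Pi.single j 1) = 0 := hf' (Submodule.subset_span ⟨j, rfl⟩)
    simp [this]
  · simp [inv_mul_cancel₀ hf]

variable (lam : (ℕ → ℂ) →ₗ[ℂ] ℂ)

/-- The derivation which applies a linear functional to the sequence of all partial derivatives. -/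
noncomputable def del : Derivation ℂ FF FF :=
  Derivation.mk'
    { toFun := fun f => fun s => lam (fun j => coeff s (pderiv ℂ j f))
      map_add' := by
        intro f g
        funext s
        have : (fun j => coeff s (pderiv ℂ j (f + g))) =
            (fun j => coeff s (pderiv ℂ j f)) + (fun j => coeff s (pderiv ℂ j g)) := by
          funext j; simp
        show lam _ = lam _ + lam _
        rw [this, map_add]
      map_smul' := by
        intro c f
        funext s
        have : (fun j => coeff s (pderiv ℂ j (c • f))) =
            c • (fun j => coeff s (pderiv ℂ j f)) := by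
          funext j; simp
        show lam _ = c • lam _
        rw [this, map_smul] }
    (by
      intro f g
      ext s
      have h : (fun j => coeff s (pderiv ℂ j (f * g))) =
          ∑ p ∈ antidiagonal s, (coeff p.1 f • (fun j => coeff p.2 (pderiv ℂ j g)) +
            coeff p.1 g • (fun j => coeff p.2 (pderiv ℂ j f))) := by
        funext j
        rw [Derivation.leibniz, map_add, smul_eq_mul, smul_eq_mul, coeff_mul, coeff_mul,
          ← Finset.sum_add_distrib, Finset.sum_apply]
        rfl
      show lam _ = _
      rw [h, map_sum, map_add, smul_eq_mul, smul_eq_mul, coeff_mul, coeff_mul,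
        ← Finset.sum_add_distrib]
      refine Finset.sum_congr rfl fun p _ => ?_
      rw [map_add, map_smul, map_smul]
      rfl)

theorem coeff_del (f : FF) (s : ℕ →₀ ℕ) :
    coeff s (del lam f) = lam (fun j => coeff s (pderiv ℂ j f)) := rfl

theorem del_X (hl : ∀ j, lam (Pi.single j 1) = 0) (i : ℕ) : del lam (X i) = 0 := by
  classical
  ext s
  rw [coeff_del]
  have : (fun j => coeff s (pderiv ℂ j (X i : FF))) =
      (coeff s (1 : FF)) • (Pi.single i 1 : ℕ → ℂ) := by
    funext j
    by_cases h : j = i
    · subst h
      simp [pderiv_X_self]
    · simp [pderiv_X_of_ne (Ne.symm h), h]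
  rw [this, map_smul, hl]
  simp

/-- The sum of all variables. -/
noncomputable def ones : FF := fun s => if s.degree = 1 then 1 else 0

theorem coeff_ones (s : ℕ →₀ ℕ) : coeff s ones = if s.degree = 1 then (1 : ℂ) else 0 := rfl

theorem del_ones (hl : lam (fun _ => 1) = 1) : del lam ones = 1 := by
  classical
  ext s
  rw [coeff_del]
  have : (fun j => coeff s (pderiv ℂ j ones)) = (coeff s (1 : FF)) • (fun _ => 1 : ℕ → ℂ) := by
    funext j
    rw [coeff_pderiv, coeff_ones, coeff_one]
    have hd : (s + Finsupp.single j 1).degree = s.degree + 1 := by
      rw [map_add, Finsupp.degree_single]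
    rw [hd]
    by_cases h : s = 0
    · subst h; simp
    · have : s.degree ≠ 0 := by rwa [Ne, Finsupp.degree_eq_zero_iff]
      simp [h, this]
  rw [this, map_smul, hl]
  simp

end Pool.Agent.Q81.FT
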