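import Pool.Agent.Q81.FT.Deriv

/-!
# The exponential of `X₀ δ`
-/

namespace Pool.Agent.Q81.FT

open MvPowerSeries Finset

variable (d : Derivation ℂ FF FF)

/-- The divided power `(X₀ d)ⁿ / n!`. -/
noncomputable def E (n : ℕ) : FF →ₗ[ℂ] FF :=
  ((n.factorial : ℂ)⁻¹) • ((((X 0 : FF) • d : Derivation ℂ FF FF) : FF →ₗ[ℂ] FF) ^ n)

theorem E_zero (f : FF) : E d 0 f = f := by simp [E]

theorem E_succ (n : ℕ) (f : FF) :
    ((n + 1 : ℕ) : ℂ) • E d (n + 1) f = X 0 * d (E d n f) := by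
  have h : ((n + 1 : ℕ) : ℂ) ≠ 0 := by exact_mod_cast Nat.succ_ne_zero n
  have hf : ((n.factorial : ℕ) : ℂ) ≠ 0 := by exact_mod_cast n.factorial_ne_zero
  simp only [E, LinearMap.smul_apply]
  rw [pow_succ', Nat.factorial_succ, smul_smul, Derivation.map_smul]
  rw [Nat.cast_mul, mul_inv, ← mul_assoc, mul_inv_cancel₀ h, one_mul]
  rw [mul_smul_comm]
  rfl

theorem smul_inj {c : ℂ} (hc : c ≠ 0) {f g : FF} (h : c • f = c • g) : f = g := by
  have := congrArg (fun x => c⁻¹ • x) h
  simpa [smul_smul, inv_mul_cancel₀ hc] using this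

theorem E_mul (n : ℕ) (f g : FF) :
    E d n (f * g) = ∑ p ∈ antidiagonal n, E d p.1 f * E d p.2 g := by
  induction n with
  | zero => simp [E_zero]
  | succ n ih =>
    have h : ((n + 1 : ℕ) : ℂ) ≠ 0 := by exact_mod_cast Nat.succ_ne_zero n
    apply smul_inj h
    rw [E_succ, ih, map_sum, Finset.mul_sum]
    have h1 : ∀ p ∈ antidiagonal n, X 0 * d (E d p.1 f * E d p.2 g) =
        ((p.1 + 1 : ℕ) : ℂ) • (E d (p.1 + 1) f * E d p.2 g) +
          ((p.2 + 1 : ℕ) : ℂ) • (E d p.1 f * E d (p.2 + 1) g) := by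
      intro p _
      rw [Derivation.leibniz, smul_eq_mul, smul_eq_mul, ← smul_mul_assoc, E_succ,
        ← mul_smul_comm, E_succ]
      ring
    rw [Finset.sum_congr rfl h1, Finset.sum_add_distrib, Finset.smul_sum]
    have h2 : ∑ p ∈ antidiagonal (n + 1), ((n + 1 : ℕ) : ℂ) • (E d p.1 f * E d p.2 g) =
        ∑ p ∈ antidiagonal (n + 1), ((p.1 : ℕ) : ℂ) • (E d p.1 f * E d p.2 g) +
        ∑ p ∈ antidiagonal (n + 1), ((p.2 : ℕ) : ℂ) • (E d p.1 f * E d p.2 g) := by
      rw [← Finset.sum_add_distrib]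
      refine Finset.sum_congr rfl fun p hp => ?_
      rw [← add_smul, ← Nat.cast_add, HasAntidiagonal.mem_antidiagonal.1 hp]
    rw [h2]
    congr 1
    · rw [Finset.Nat.sum_antidiagonal_succ]
      simp
    · rw [Finset.Nat.sum_antidiagonal_succ']
      simp

/-- `X₀ᵏ` divides `f`. -/
def Dv (k : ℕ) (f : FF) : Prop := ∀ s : ℕ →₀ ℕ, s 0 < k → coeff s f = 0

theorem Dv.iff {k : ℕ} {f : FF} : Dv k f ↔ (X 0 : FF) ^ k ∣ f := (X_pow_dvd_iff).symm

theorem Dv.mul {k l : ℕ} {f g : FF} (hf : Dv k f) (hg : Dv l g) : Dv (k + l) (f * g) := by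
  rw [Dv.iff] at *
  rw [pow_add]
  exact mul_dvd_mul hf hg

variable {d}

theorem d_X_pow (h0 : d (X 0) = 0) (k : ℕ) : d ((X 0 : FF) ^ k) = 0 := by
  rw [Derivation.leibniz_pow, h0]; simp

theorem E_Dv (h0 : d (X 0) = 0) (n k : ℕ) {f : FF} (hf : Dv k f) : Dv (n + k) (E d n f) := by
  induction n with
  | zero => simpa [E_zero] using hf
  | succ n ih =>
    have h : ((n + 1 : ℕ) : ℂ) ≠ 0 := by exact_mod_cast Nat.succ_ne_zero n
    rw [Dv.iff] at ih
    obtain ⟨g, hg⟩ := ih
    have h1 := E_succ d n f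
    rw [hg, Derivation.leibniz, d_X_pow h0, smul_zero, add_zero, smul_eq_mul] at h1
    have h2 : E d (n + 1) f = (X 0 : FF) ^ (n + 1 + k) * (((n + 1 : ℕ) : ℂ)⁻¹ • d g) := by
      apply smul_inj h
      rw [h1, mul_smul_comm, smul_smul, mul_inv_cancel₀ h, one_smul]
      ring
    rw [Dv.iff, h2]
    exact Dvd.intro _ rfl

theorem coeff_E (h0 : d (X 0) = 0) {n : ℕ} (f : FF) {s : ℕ →₀ ℕ} (hs : s 0 < n) :
    coeff s (E d n f) = 0 := by
  have : Dv 0 f := fun s hs => absurd hs (Nat.not_lt_zero _)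
  exact E_Dv h0 n 0 this s (by simpa using hs)

variable (d)

/-- The exponential of `X₀ d`. -/
noncomputable def Ex : FF →ₗ[ℂ] FF where
  toFun f := fun s => ∑ n ∈ range (s 0 + 1), coeff s (E d n f)
  map_add' f g := by
    funext s
    show _ = (∑ n ∈ range (s 0 + 1), coeff s (E d n f)) + ∑ n ∈ range (s 0 + 1), coeff s (E d n g)
    rw [← Finset.sum_add_distrib]
    exact Finset.sum_congr rfl fun n _ => by simp
  map_smul' c f := by
    funext s
    show _ = c * ∑ n ∈ range (s 0 + 1), coeff s (E d n f)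
    rw [Finset.mul_sum]
    exact Finset.sum_congr rfl fun n _ => by simp

variable {d}

theorem coeff_Ex (h0 : d (X 0) = 0) (f : FF) {s : ℕ →₀ ℕ} {N : ℕ} (hN : s 0 ≤ N) :
    coeff s (Ex d f) = ∑ n ∈ range (N + 1), coeff s (E d n f) := by
  show ∑ n ∈ range (s 0 + 1), coeff s (E d n f) = _
  apply Finset.sum_subset
  · intro n hn
    simp only [mem_range] at *
    omega
  · intro n hn hn'
    simp only [mem_range, not_lt] at *
    exact coeff_E h0 f (by omega)

theorem coeff_Ex_of_zero (f : FF) {s : ℕ →₀ ℕ} (hs : s 0 = 0) :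
    coeff s (Ex d f) = coeff s f := by
  show ∑ n ∈ range (s 0 + 1), coeff s (E d n f) = _
  rw [hs]
  simp [E_zero]

/-- truncation -/
noncomputable def tr (d : Derivation ℂ FF FF) (N : ℕ) (f : FF) : FF :=
  ∑ n ∈ range (N + 1), E d n f

theorem Ex_sub_tr (h0 : d (X 0) = 0) (f : FF) (N : ℕ) : Dv (N + 1) (Ex d f - tr d N f) := by
  intro s hs
  rw [map_sub, coeff_Ex h0 f (Nat.lt_succ_iff.1 hs), tr, map_sum, sub_self]

/-- equality modulo all powers of `X₀` -/
theorem eq_of_Dv {f g : FF} (h : ∀ N, Dv (N + 1) (f - g)) : f = g := by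
  ext s
  have := h (s 0) s (Nat.lt_succ_self _)
  rwa [map_sub, sub_eq_zero] at this

theorem Dv.add {k : ℕ} {f g : FF} (hf : Dv k f) (hg : Dv k g) : Dv k (f + g) := by
  intro s hs; rw [map_add, hf s hs, hg s hs, add_zero]

theorem Dv.neg {k : ℕ} {f : FF} (hf : Dv k f) : Dv k (-f) := by
  intro s hs; rw [map_neg, hf s hs, neg_zero]

theorem Dv.sub {k : ℕ} {f g : FF} (hf : Dv k f) (hg : Dv k g) : Dv k (f - g) := by
  intro s hs; rw [map_sub, hf s hs, hg s hs, sub_zero]

theorem Dv.mono {k l : ℕ} {f : FF} (hf : Dv k f) (h : l ≤ k) : Dv l f :=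
  fun s hs => hf s (lt_of_lt_of_le hs h)

theorem Dv.sum {ι : Type*} {k : ℕ} {S : Finset ι} {F : ι → FF} (h : ∀ i ∈ S, Dv k (F i)) :
    Dv k (∑ i ∈ S, F i) := by
  intro s hs
  rw [map_sum]
  exact Finset.sum_eq_zero fun i hi => h i hi s hs

theorem Dv.smul {k : ℕ} {f : FF} (hf : Dv k f) (c : ℂ) : Dv k (c • f) := by
  intro s hs
  rw [LinearMap.map_smul, hf s hs, smul_zero]

theorem Dv.mul_right {k : ℕ} {f : FF} (hf : Dv k f) (g : FF) : Dv k (f * g) := by
  rw [Dv.iff] at *
  exact Dvd.dvd.mul_right hf g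

theorem Dv.mul_left {k : ℕ} {f : FF} (hf : Dv k f) (g : FF) : Dv k (g * f) := by
  rw [Dv.iff] at *
  exact Dvd.dvd.mul_left hf g

theorem Dv_top (f : FF) : Dv 0 f := fun _ hs => absurd hs (Nat.not_lt_zero _)

theorem Ex_mul (h0 : d (X 0) = 0) (f g : FF) : Ex d (f * g) = Ex d f * Ex d g := by
  apply eq_of_Dv
  intro N
  have h1 := Ex_sub_tr h0 (f * g) N
  have h2 := Ex_sub_tr h0 f N
  have h3 := Ex_sub_tr h0 g N
  have h4 : Dv (N + 1) (tr d N (f * g) - tr d N f * tr d N g) := by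
    have e1 : tr d N (f * g) = ∑ n ∈ range (N + 1), ∑ p ∈ antidiagonal n,
        E d p.1 f * E d p.2 g := Finset.sum_congr rfl fun n _ => E_mul d n f g
    have e2 : tr d N f * tr d N g = ∑ p ∈ range (N + 1) ×ˢ range (N + 1),
        E d p.1 f * E d p.2 g := by
      rw [tr, tr, Finset.sum_mul_sum, Finset.sum_product]
    have e3 : ∑ n ∈ range (N + 1), ∑ p ∈ antidiagonal n, E d p.1 f * E d p.2 g =
        ∑ p ∈ (range (N + 1) ×ˢ range (N + 1)).filter (fun p => p.1 + p.2 ≤ N),
          E d p.1 f * E d p.2 g := by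
      rw [Finset.sum_sigma']
      refine Finset.sum_bij' (fun x _ => x.2) (fun p _ => ⟨p.1 + p.2, p⟩) ?_ ?_ ?_ ?_ ?_
      · intro x hx
        simp only [mem_sigma, mem_range, HasAntidiagonal.mem_antidiagonal, mem_filter, mem_product] at *
        omega
      · intro x hx
        simp only [mem_filter, mem_product, mem_range] at hx
        rw [mem_sigma, mem_range, HasAntidiagonal.mem_antidiagonal]
        exact ⟨Nat.lt_succ_of_le hx.2, rfl⟩
      · rintro ⟨n, p⟩ hx
        simp only [mem_sigma, mem_range, HasAntidiagonal.mem_antidiagonal] at hx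
        obtain ⟨_, rfl⟩ := hx
        rfl
      · intro x _; rfl
      · intro x _; rfl
    rw [e1, e2, e3, ← Finset.sum_filter_add_sum_filter_not (range (N + 1) ×ˢ range (N + 1))
      (fun p => p.1 + p.2 ≤ N)]
    rw [sub_add_cancel_left]
    apply Dv.neg
    apply Dv.sum
    intro p hp
    simp only [mem_filter, mem_product, mem_range, not_le] at hp
    have := (E_Dv h0 p.1 0 (Dv_top f)).mul (E_Dv h0 p.2 0 (Dv_top g))
    exact this.mono (by omega)
  have h5 : Ex d (f * g) - Ex d f * Ex d g = (Ex d (f * g) - tr d N (f * g)) +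
      (tr d N (f * g) - tr d N f * tr d N g) - (Ex d f - tr d N f) * Ex d g
      - tr d N f * (Ex d g - tr d N g) := by ring
  rw [h5]
  exact ((h1.add h4).sub (h2.mul_right _)).sub (h3.mul_left _)

theorem Ex_one (h0 : d (X 0) = 0) : Ex d 1 = 1 := by
  ext s
  rw [coeff_Ex h0 1 le_rfl, Finset.sum_range_succ']
  have : ∀ n ∈ range (s 0), coeff s (E d (n + 1) (1 : FF)) = 0 := by
    intro n _
    have h : ∀ n, E d (n + 1) (1 : FF) = 0 := by
      intro n
      induction n with
      | zero =>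
        have := E_succ d 0 1
        rw [E_zero, Derivation.map_one_eq_zero, mul_zero] at this
        simpa using this
      | succ n ih =>
        have h' : ((n + 1 + 1 : ℕ) : ℂ) ≠ 0 := by exact_mod_cast Nat.succ_ne_zero (n + 1)
        apply smul_inj h'
        rw [E_succ, ih, map_zero, mul_zero, smul_zero]
    rw [h]; simp
  rw [Finset.sum_eq_zero this, zero_add, E_zero]

theorem E_E (n m : ℕ) (f : FF) :
    E d n (E d m f) = (((n + m).choose n : ℕ) : ℂ) • E d (n + m) f := by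
  simp only [E, LinearMap.smul_apply, map_smul]
  rw [← Module.End.mul_apply, ← pow_add, smul_smul, smul_smul]
  congr 1
  have h1 : ((n.factorial : ℕ) : ℂ) ≠ 0 := by exact_mod_cast n.factorial_ne_zero
  have h2 : ((m.factorial : ℕ) : ℂ) ≠ 0 := by exact_mod_cast m.factorial_ne_zero
  have h3 : (((n + m).factorial : ℕ) : ℂ) ≠ 0 := by exact_mod_cast (n + m).factorial_ne_zero
  have h4 : (((n + m).choose n : ℕ) : ℂ) * n.factorial * m.factorial = (n + m).factorial := by
    have := Nat.add_choose_mul_factorial_mul_factorial n m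
    rw [← Nat.choose_symm_add] at this
    exact_mod_cast this
  rw [← h4]
  have h5 : (((n + m).choose n : ℕ) : ℂ) ≠ 0 := by
    intro h
    rw [h] at h4
    simp at h4
    exact h3 h4.symm
  field_simp

theorem E_neg (n : ℕ) (f : FF) : E (-d) n f = ((-1 : ℂ) ^ n) • E d n f := by
  induction n generalizing f with
  | zero => simp [E_zero]
  | succ n ih =>
    have h' : ((n + 1 : ℕ) : ℂ) ≠ 0 := by exact_mod_cast Nat.succ_ne_zero n
    apply smul_inj h'
    rw [E_succ, ih, smul_comm, E_succ, Derivation.neg_apply, Derivation.map_smul, pow_succ]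
    simp

theorem Ex_neg_Ex (h0 : d (X 0) = 0) (f : FF) : Ex d (Ex (-d) f) = f := by
  have h0' : (-d) (X 0) = 0 := by rw [Derivation.neg_apply, h0, neg_zero]
  apply eq_of_Dv
  intro N
  set g := Ex (-d) f with hg
  have h1 : Dv (N + 1) (Ex d g - tr d N g) := Ex_sub_tr h0 g N
  have h2 : Dv (N + 1) (tr d N g - tr d N (tr (-d) N f)) := by
    have : tr d N g - tr d N (tr (-d) N f) = ∑ n ∈ range (N + 1), E d n (g - tr (-d) N f) := by
      rw [tr, tr, ← Finset.sum_sub_distrib]
      exact Finset.sum_congr rfl fun n _ => by rw [map_sub]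
    rw [this]
    refine Dv.sum fun n _ => ?_
    exact (E_Dv h0 n (N + 1) (Ex_sub_tr h0' f N)).mono (by omega)
  have h3 : Dv (N + 1) (tr d N (tr (-d) N f) - f) := by
    have e1 : tr d N (tr (-d) N f) = ∑ p ∈ range (N + 1) ×ˢ range (N + 1),
        ((-1 : ℂ) ^ p.2 * (((p.1 + p.2).choose p.1 : ℕ) : ℂ)) • E d (p.1 + p.2) f := by
      rw [Finset.sum_product, tr]
      refine Finset.sum_congr rfl fun n _ => ?_
      rw [tr, map_sum]
      refine Finset.sum_congr rfl fun m _ => ?_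
      rw [E_neg, map_smul, E_E, smul_smul]
    have e2 : ∑ p ∈ (range (N + 1) ×ˢ range (N + 1)).filter (fun p => p.1 + p.2 ≤ N),
        ((-1 : ℂ) ^ p.2 * (((p.1 + p.2).choose p.1 : ℕ) : ℂ)) • E d (p.1 + p.2) f = f := by
      have e3 : ∑ p ∈ (range (N + 1) ×ˢ range (N + 1)).filter (fun p => p.1 + p.2 ≤ N),
          ((-1 : ℂ) ^ p.2 * (((p.1 + p.2).choose p.1 : ℕ) : ℂ)) • E d (p.1 + p.2) f =
          ∑ n ∈ range (N + 1), ∑ p ∈ antidiagonal n,
          ((-1 : ℂ) ^ p.2 * (((p.1 + p.2).choose p.1 : ℕ) : ℂ)) • E d (p.1 + p.2) f := by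
        rw [Finset.sum_sigma']
        symm
        refine Finset.sum_bij' (fun x _ => x.2) (fun p _ => ⟨p.1 + p.2, p⟩) ?_ ?_ ?_ ?_ ?_
        · intro x hx
          simp only [mem_sigma, mem_range, HasAntidiagonal.mem_antidiagonal, mem_filter,
            mem_product] at *
          omega
        · intro x hx
          simp only [mem_filter, mem_product, mem_range] at hx
          rw [mem_sigma, mem_range, HasAntidiagonal.mem_antidiagonal]
          exact ⟨Nat.lt_succ_of_le hx.2, rfl⟩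
        · rintro ⟨n, p⟩ hx
          simp only [mem_sigma, mem_range, HasAntidiagonal.mem_antidiagonal] at hx
          obtain ⟨_, rfl⟩ := hx
          rfl
        · intro x _; rfl
        · intro x _; rfl
      rw [e3, Finset.sum_range_succ']
      have e4 : ∀ n ∈ range N, ∑ p ∈ antidiagonal (n + 1),
          ((-1 : ℂ) ^ p.2 * (((p.1 + p.2).choose p.1 : ℕ) : ℂ)) • E d (p.1 + p.2) f = 0 := by
        intro n _
        have e5 : ∑ p ∈ antidiagonal (n + 1),
            ((-1 : ℂ) ^ p.2 * (((p.1 + p.2).choose p.1 : ℕ) : ℂ)) • E d (p.1 + p.2) f =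
            (∑ p ∈ antidiagonal (n + 1), ((n + 1).choose p.1 : ℂ) * ((1 : ℂ) ^ p.1 *
              (-1 : ℂ) ^ p.2)) • E d (n + 1) f := by
          rw [Finset.sum_smul]
          refine Finset.sum_congr rfl fun p hp => ?_
          rw [HasAntidiagonal.mem_antidiagonal.1 hp]
          congr 1
          ring
        rw [e5]
        have e6 := (Commute.all (1 : ℂ) (-1)).add_pow' (n + 1)
        rw [add_neg_cancel, zero_pow (Nat.succ_ne_zero n)] at e6
        have e7 : (∑ p ∈ antidiagonal (n + 1), ((n + 1).choose p.1 : ℂ) * ((1 : ℂ) ^ p.1 *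
              (-1 : ℂ) ^ p.2)) = 0 := by
          rw [e6]
          refine Finset.sum_congr rfl fun p hp => ?_
          rw [nsmul_eq_mul]
        rw [e7, zero_smul]
      rw [Finset.sum_eq_zero e4, zero_add]
      simp [E_zero]
    rw [e1, ← Finset.sum_filter_add_sum_filter_not (range (N + 1) ×ˢ range (N + 1))
      (fun p => p.1 + p.2 ≤ N), e2, add_sub_cancel_left]
    refine Dv.sum fun p hp => ?_
    simp only [mem_filter, mem_product, mem_range, not_le] at hp
    exact ((E_Dv h0 (p.1 + p.2) 0 (Dv_top f)).mono (by omega)).smul _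
  have h4 : Ex d g - f = (Ex d g - tr d N g) + (tr d N g - tr d N (tr (-d) N f)) +
      (tr d N (tr (-d) N f) - f) := by ring
  rw [h4]
  exact (h1.add h2).add h3

end Pool.Agent.Q81.FT
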